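import Pool.Agent.Lib.MP_ab8df0_nt.B.Auto2
import Pool.Agent.Lib.MP_ab8df0_nt.P.L1D

/-! Constants, proof tree and the result of the computation. -/

set_option maxRecDepth 100000

namespace Pool.Agent.Lib.MP_ab8df0_nt.T.B11c

open Pool.Agent.Lib.MP_ab8df0_nt.B Pool.Agent.Lib.MP_ab8df0_nt.P

def vs : Cs := [([0, 1], 1), ([], 1), ([], 1), ([], 1), ([], 1), ([], 1), ([], 1), ([], 1), ([], 1), ([], 1), ([], 1), ([], 1), ([], 1), ([], 1), ([], 1), 
  ([34, -177, 611, -759, 584, -178, 22, 74, -18, 55, 3, 9], 16),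
  ([225, -930, 2598, -3027, 2238, -660, 36, 270, -99, 198, 6, 33], 8),
  ([-999, 3906, -10269, 11691, -8298, 2340, -126, -1026, 405, -702, -9, -117], 8),
  ([-225, 930, -2598, 3027, -2238, 660, -36, -270, 99, -198, -6, -33], 4),
  ([999, -3906, 10269, -11691, 8298, -2340, 126, 1026, -405, 702, 9, 117], 1),
  ([197, -774, 1689, -1793, 1146, -300, -10, 150, -75, 90, -3, 15], 1),
  ([203, -683, 2114, -2587, 1970, -566, 56, 234, -81, 173, 6, 29], 1),
  ([158, -538, 1167, -1221, 812, -224, -10, 102, -50, 66, -1, 11], 1),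
  ([25856, -92896, 241136, -274272, 198080, -56000, 3168, 24768, -9152, 17184, 368, 2848], 1),
  ([61, -367, 1241, -1540, 1130, -330, 18, 124, -59, 93, 1, 16], 1),
  ([-3104, 4816, -26256, 38032, -34688, 10848, -1696, -3616, 800, -3312, -272, -560], 1),
  ([1040, -2848, 10752, -12896, 10016, -3136, 448, 1344, -240, 992, 64, 160], 1),
  ([77660160, -80740352, 96272384, -494141440, 615907328, -213385216, -20054016, -16252928, -47382528, 40370176, 1638400, 9175040], 1),
  ([-84, 274, -957, 1221, -972, 296, -34, -114, 32, -90, -5, -15], 1),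
  ([-5024776192, 39738933248, -117595701248, 200481439744, -144653156352, 36914069504, 5460983808, -3233808384, 17003708416, -6163529728, 1522532352, -1566572544], 1),
  ([21200, -88736, 230336, -262480, 186976, -53760, 1984, 22944, -9200, 16032, 256, 2672], 1),
  ([929280, -3672064, 9234432, -10441728, 7350272, -2070528, 60416, 901120, -382464, 618496, 5120, 103424], 1),
  ([8016, -33136, 90272, -102704, 66656, -16480, 832, 8608, -4336, 5008, -224, 848], 1),
  ([118528, -231168, -650496, 1347840, -1066496, 279040, -73216, -89600, 62208, -73472, 1792, -14080], 1),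
  ([31260672, -73662464, 122224640, 684851200, -1591869440, 790102016, 10878976, 786432, -4653056, -185860096, -35323904, -33947648], 1),
  ([186, -744, 2007, -2308, 1668, -480, 26, 204, -78, 144, 3, 24], 8),
  ([-75, 310, -866, 1009, -746, 220, -12, -90, 33, -66, -2, -11], 16),
  ([-225, 930, -2598, 3027, -2238, 660, -36, -270, 99, -198, -6, -33], 16),
  ([333, -1302, 3423, -3897, 2766, -780, 42, 342, -135, 234, 3, 39], 8),
  ([-2160, 8445, -22461, 25641, -18456, 5250, -270, -2322, 864, -1611, -33, -267], 8),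
  ([-106, 408, -1049, 1188, -848, 240, -10, -104, 42, -72, -1, -12], 8),
  ([-91, 310, -866, 1009, -746, 220, -12, -90, 33, -66, -2, -11], 16),
  ([42951, -166374, 439713, -503481, 363234, -104052, 5886, 44766, -16893, 31314, 645, 5199], 200),
  ([-2711814, 10578975, -28138503, 32234763, -23228136, 6599826, -326550, -2893218, 1095174, -2018109, -41391, -335661], 1000),
  ([2100926, -8201932, 21823023, -25022168, 18057212, -5167880, 288266, 2223716, -840986, 1560172, 32507, 259620], 5000),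
  ([3638898, -14215104, 37886557, -43482252, 31400272, -8996032, 500018, 3871384, -1461426, 2712544, 56869, 450660], 15000),
  ([-10379, 42226, -112078, 128421, -92122, 26116, -1284, -11426, 4417, -7926, -142, -1319], 400),
  ([96, -390, 888, -963, 660, -192, 0, 78, -36, 54, 0, 9], 4),
  ([-459, 1941, -4815, 5361, -3762, 1134, -90, -426, 177, -303, -3, -51], 4),
  ([91, -310, 866, -1009, 746, -220, 12, 90, -33, 66, 2, 11], 16),
  ([186, -744, 2007, -2308, 1668, -480, 26, 204, -78, 144, 3, 24], 16)]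

def c0 : EC := ⟨16, 17, 18, 19, [20, 21, 22, 23, 24, 25, 26, 27, 28, 29], [30, 21, 31, 32, 24, 33, 27, 34]⟩

def M (t0 : ℤ) (k0 : ℕ) : List Hyp := [
  .disc 1 t0 k0,
  .eq 2 (.add (.mul (.num 2) (.inv (.add (.num 1) (.mul (.var 1) (.var 15))))) (.neg (.num 1))),
  .sqr 3 (.add (.num 1) (.mul (.num 3) (.sq (.var 2)))),
  .cls (.add (.num 1) (.mul (.num 3) (.sq (.var 2)))) [],
  .cls (.mul (.var 35) (.var 3)) [],
  .sqr 4 (.add (.num 1) (.var 3)),
  .cls (.add (.num 1) (.var 3)) [],
  .cls (.mul (.add (.num 1) (.var 4)) (.var 36)) [],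
  .eq 5 (.mul (.var 37) (.add (.num 1) (.var 4))),
  .on c0 false 5 6,
  .lin 7 (.mul (.add (.num 1) (.mul (.var 1) (.var 15))) (.add (.num 1) (.mul (.num (-1)) (.var 15)))) (.mul (.num (-2)) (.var 15)),
  .lin 8 (.add (.var 3) (.var 35)) (.mul (.num 3) (.mul (.add (.var 2) (.var 40)) (.var 7))),
  .lin 9 (.add (.var 4) (.var 41)) (.var 8),
  .eq 10 (.mul (.var 37) (.var 9)),
  .dq 5 38 1 (-1) 1 10,
  .lin 11 (.mul (.add (.num 1) (.mul (.var 1) (.var 15))) (.add (.num 37) (.mul (.num (-29)) (.var 15)))) (.mul (.num (-2)) (.var 15)),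
  .lin 12 (.add (.var 3) (.var 44)) (.mul (.num 3) (.mul (.add (.var 2) (.var 45)) (.var 11))),
  .lin 13 (.add (.var 4) (.var 46)) (.var 12),
  .eq 14 (.mul (.var 37) (.var 13)),
  .dq 5 42 1 (-29) 37 14]

def k0 : Cut := ⟨[], [], [], [[false, false, false, false, false, false, false, true, false, false], [false, false, false, false, false, true, false, false, false, false], [false, false, true, false, false, false, false, false, false, false], [false, false, true, false, true, false, false, false, false, false], [false, true, false, false, false, false, false, false, false, false], [false, true, false, false, false, false, false, false, true, false], [false, false, true, true, false, false, false, false, false, false], [false, true, true, true, false, true, true, false, false, false], [true, false, false, false, false, false, false, false, false, false], [true, true, false, true, true, false, true, false, false, true]], [[false, false, false, false, false, false,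 false, false, true, false], [false, false, false, false, true, false, false, false, false, false], [false, false, true, false, false, false, false, false, false, false], [false, false, true, false, false, false, true, false, false, false], [false, false, true, true, false, false, false, false, false, false], [false, true, false, false, false, false, false, false, false, false], [false, true, false, false, true, false, true, true, false, false], [true, false, false, false, false, false, false, false, false, false], [false, false, false, false, true, true, false, false, false, false], [false, true, false, true, false, false, false, true, true, true]]⟩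

def k1 : Cut := ⟨[0, 1], [], [[true, false, false, false, false, false, false, false, false, false], [true, false, true, false, false, false, false, false, false, false]], [[false, false, true, false, false, false, false, true, false, false], [false, false, false, false, false, true, false, false, false, false], [true, false, true, false, false, false, false, false, true, false], [false, false, false, false, false, true, false, false, false, true], [false, true, false, false, false, false, false, false, false, false], [false, true, false, false, false, true, true, false, false, false], [false, true, true, true, false, true, true, false, false, false], [false, true, false, true, true, false, true, false, false, true]], [[true, false, false, false, false, false, false, false, false, false], [false, false, false, false, false, false, true, false, false, false], [true, true, false, false, false, false, false, false, false, false], [true, true, false, false, false, false,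 false, true, true, false], [true, true, false, false, false, true, false, false, true, true], [false, false, false, true, false, false, false, false, false, false], [false, false, false, true, false, false, true, true, false, false], [true, true, true, false, false, false, false, false, false, false], [false, true, false, false, true, false, false, false, false, false], [false, false, false, true, false, true, false, false, false, false]]⟩

def A : List AH := [
  .ec c0 8 ([-8, 262, -2207, 3401, -2804, 988, -134, -318, 60, -282, -23, -47], 288) ([8, -262, 2207, -3401, 2804, -988, 134, 318, -60, 282, 23, 47], 2304) k0 k1,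
  .on c0 false 38 39,
  .on c0 false 42 43,
  .on c0 true 47 48]

theorem auto : (baseOk 14 vs && A.all (AH.ok FDL1 14 vs)) = true := by decide +kernel

def r0_1 : Tree := .tr 98 [[ce (-1) 136 5 12 0x325dd4199466398]] (.half 71 99 75 [ce (-1) 136 5 12 0x77d031408c14212] (ce 0 136 5 12 0x7d45c5671b6728a) (.fin 71 99 100 [[ce (-1) 136 4 12 0xaf03a04064ca]] (.newt 104 [[ce 2 136 6 12 0xb11af0054b2ca4eb65, ce (-3) 136 3 12 0xa6af760a4]] (.set 103 [[]] (.edead 71 101 76 [false, true, false, true, false, false, false, false] [ce (-8) 136 5 12 0xa78aa208d0169d0])))))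

def r0_2 : Tree := .set 52 [[ce 0 136 7 12 0xe460d037cbb419d19107f]] (.newt 53 [[ce 1 136 6 12 0x1c78b20d989c29382b, ce (-2) 136 4 12 0xe54752a567c3]] (.newt 56 [[ce 0 136 6 12 0x96802ad5fe2ea2c2a1, ce (-1) 136 4 12 0x5062dd400eef]] (.set 59 [[]] (.yrt 60 [] (ce 1 136 5 12 0x2b4e1d8d0ee0f5b) (.split 51 (.set 52 [[ce 0 136 8 12 0xf2989a033eaee819e864a0ff]] (.newt 53 [[ce 1 136 7 12 0xe7f15a276412cb40c02b, ce (-2) 136 5 12 0xe6f17a905354f93]] (.newt 56 [[ce 0 136 7 12 0xca63822eabec1e30f3551, ce (-1) 136 5 12 0x6fac44ec1a82b4b]] (.set 59 [[]] (.newt 78 [[ce 1 136 5 12 0xc84e199e0a22c53, ce (-2) 136 3 12 0x97ae038e1]] (.set 61 [[ce 0 136 8 12 0x6cac584368e850dca8d8781d]] (.set 62 [[ce (-2) 136 6 12 0x817c2f9604a7cab733]] (.set 63 [[ce (-1) 136 6 12 0x36a1a806f606c028b3]] (.set 64 [[]] (.dent 78 72 65 true [[ce (-2) 136 4 12 0x5a18d6016b6f]] [[ce 0 136 10 12 0x80340c00c0e8200e81a0080a020301]] [[ce 0 136 9 12 0xc050280303060241805008201e1]] (.deep 71 75 76 80 81 51 3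 [12] [] [] (.pnil 83) (.pnil 83) (.set 82 [[]] (.set 83 [[]] (.set 84 [[]] (.set 85 [[ce (-2) 136 5 12 0x36f0105e5de2980]] (.set 86 [[ce (-1) 136 4 12 0x6d8636b7d548]] (.half 71 87 75 [ce 0 136 5 12 0xbefdc763d0e5a88] (ce (-1) 136 5 12 0xb0e8e0baa918d98) (.fin 71 87 88 [[ce 0 136 4 12 0xd1a82424c28c]] (.newt 92 [[ce 0 136 5 12 0xd4d1924e45e2a88, ce (-1) 136 3 11 0x73922924]] (.set 91 [[]] (.half 71 89 76 [ce (-1) 136 5 12 0x5ce58553d86188c] (ce 0 136 5 12 0x86c90aeb694b79c) (.fin 71 89 93 [[ce (-1) 136 4 12 0xb3a42c208288]] (.newt 97 [[ce 0 136 5 12 0xd79896211ac4b14, ce (-1) 136 3 12 0x8d1822920]] (.set 96 [[]] (.add 94 72 false [[ce (-1) 136 5 12 0x6010fa3915e0198]] (.tr 98 [[ce (-1) 136 5 12 0x514d9e4884e0190]] (.half 71 99 75 [ce (-1) 136 5 12 0xd248b63018f201e] (ce 0 136 5 12 0x5e7102370b52012) (.fin 71 99 100 [[ce (-1) 136 4 12 0x6b47c0c86482]] (.newt 104 [[ce 2 136 6 12 0x6199f475ca28642e59, ce (-3) 136 3 12 0x7ea756084]] (.set 103 [[]] (.edead 71 101 76 [false,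 true, false, true, false, false, false, false] [ce (-8) 136 5 12 0xa78aa208d0169d0]))))))))))))))))))))))))))))))) (.set 52 [[ce 0 136 8 12 0x5258ba039e0e68e9e824201f]] (.newt 53 [[ce 1 136 7 12 0x9ebc9324746144f50f00b, ce (-2) 136 5 12 0x43c1fae25f12f83]] (.newt 56 [[ce 0 136 7 12 0x2b8380acadd40671b3d01, ce (-1) 136 5 12 0x688c08dd1e84a43]] (.set 59 [[]] (.newt 78 [[ce 1 136 5 12 0x79c7dddd9e27fcf, ce (-2) 136 3 12 0xb2ea035f3]] (.set 61 [[ce 0 136 8 12 0xc2c7873c848d02c2818789d]] (.set 62 [[ce (-2) 136 6 12 0xf1be375448b32b3733]] (.set 63 [[ce (-1) 136 6 12 0x35e584a7b03ac2ae8b]] (.set 64 [[]] (.dent 78 72 65 true [[ce (-2) 136 4 12 0x65f43e09cf89]] [[ce 0 136 10 12 0x402000030020200202802008080201]] [[ce 0 136 9 12 0x8040201c0c04010100402000181]] (.deep 71 75 76 80 81 51 3 [12] [] [] (.pnil 83) (.pnil 83) (.set 82 [[]] (.set 83 [[]] (.set 84 [[]] (.set 85 [[ce (-2) 136 5 12 0x75f15e3ed90198c]] (.set 86 [[ce (-1) 136 4 12 0x27c214f75d0a]] (.half 71 87 75 [ce 0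 136 5 12 0xda45ab6140e1b80] (ce (-1) 136 5 12 0x96602182215ac16) (.fin 71 87 88 [[ce 0 136 4 12 0x1766646c8604]] (.newt 92 [[ce 0 136 5 12 0x13d0d02ec101a94, ce (-1) 136 3 12 0x953026924]] (.set 91 [[]] (.half 71 89 76 [ce (-1) 136 5 12 0x5b4c695150e1984] (ce 0 136 5 11 0x350c79061ae61e) (.fin 71 89 93 [[ce (-1) 136 4 12 0x316ee460c608]] (.newt 97 [[ce 0 136 5 12 0x93891003064290c, ce (-1) 136 3 11 0xf1126920]] (.set 96 [[]] (.add 94 72 false [[ce (-1) 136 5 12 0x8100f6780dc0394]] (.tr 98 [[ce (-1) 136 5 12 0x7344987b90a4098]] (.half 71 99 75 [ce (-1) 136 5 12 0xd4e45f0b0c7431a] (ce 0 136 5 12 0xdb540157514780e) (.fin 71 99 100 [[ce (-1) 136 4 12 0xe9ad6ec46086]] (.newt 104 [[ce 2 136 6 12 0x56525d63b106efad77, ce (-3) 136 3 12 0x27a3f6184]] (.set 103 [[]] (.edead 71 101 76 [false, true, false, true, false, false, true, false] [ce (-18) 136 5 12 0x58254545b787b14]))))))))))))))))))))))))))))))))))))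

def r0_0 : Tree := .set 15 [[ce (-4) 136 1 1 0x1]] (.set 16 [[ce (-3) 136 1 1 0x1]] (.set 17 [[ce (-3) 136 1 1 0x1]] (.set 18 [[ce (-2) 136 1 1 0x1]] (.set 19 [[]] (.set 20 [[]] (.set 21 [[]] (.set 22 [[]] (.set 23 [[]] (.set 24 [[]] (.set 25 [[]] (.set 26 [[]] (.set 27 [[]] (.set 28 [[]] (.set 29 [[]] (.set 30 [[]] (.set 31 [[]] (.set 32 [[]] (.set 33 [[]] (.set 34 [[]] (.set 35 [[ce (-3) 136 1 1 0x1]] (.set 36 [[ce (-4) 136 1 1 0x1]] (.set 37 [[ce (-4) 136 1 1 0x1]] (.set 38 [[ce (-3) 136 1 1 0x1]] (.set 39 [[ce (-3) 136 1 1 0x1]] (.set 40 [[ce (-3) 136 1 1 0x1]] (.set 41 [[ce (-4) 136 1 1 0x1]] (.set 42 [[ce (-3) 136 64 1 0x8f5c28f5c28f5c29]] (.set 43 [[ce (-3) 136 61 1 0x1cac083126e978d5]] (.set 44 [[ce (-3) 136 64 1 0xd288ce703afb7e91]] (.set 45 [[ce (-3) 136 64 1 0x9b82ef7abe53d4db]] (.set 46 [[ce (-4) 136 60 1 0xf5c28f5c28f5c29]] (.set 47 [[ce (-2) 136 1 1 0x1]] (.set 48 [[ce (-2) 136 1 1 0x1]] (.piv [20, 21, 22, 23, 24, 25, 26, 27, 28, 29] [[ce 0 136 1 0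 0x0], [ce (-3) 136 1 12 0x800], [ce (-3) 136 5 12 0x3ea56148c610a4e], [ce (-5) 136 5 12 0xe0e9aa3a1a67b06], [ce (-3) 136 5 12 0xbd38444b02b59c8], [ce (-5) 136 5 12 0x4cc88d1a14f2818], [ce (-5) 136 5 12 0x56f1ad1212f10ca], [ce (-11) 136 5 12 0xec7b74fa0af09d8], [ce (-3) 136 5 12 0x8252f5340c48de], [ce (-13) 136 5 12 0x43c7af54c67280a]] (.piv [30, 21, 31, 32, 24, 33, 27, 34] [[ce 0 136 1 0 0x0], [ce (-3) 136 1 12 0x800], [ce (-7) 136 5 12 0x3e676148c610a4e], [ce (-5) 136 5 12 0x4cc88d1a14f2818], [ce (-3) 136 5 12 0xbd38444b02b59c8], [ce (-7) 136 5 12 0x46d60c004ca209e], [ce (-11) 136 5 12 0xec7b74fa0af09d8], [ce (-11) 136 5 12 0xcd49d1c01827014]] (.piv [] [] (.disc 51 (.set 52 [[ce 0 136 1 1 0x1]] (.split 51 (.set 52 [[ce 0 136 1 1 0x1]] (.split 51 (.set 52 [[ce 0 136 1 1 0x1]] (.root 53 0 [] (ce 1 136 1 1 0x1) (.dead 55 77 [[]] [] [ce (-1) 136 4 12 0x8881f5aeafd3]) (.dead 55 77 [[]] [] [ce (-1) 136 4 12 0x8881f5aeafd3]))) (.set 52 [[ce 0 136 5 12 0x6228ce721206201]]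 (.dead 54 77 [[]] [] [ce (-1) 136 5 12 0xda6d130b822100d])))) (.set 52 [[ce 0 136 4 12 0xe0e7aa838c0b]] (.split 51 (.set 52 [[ce 0 136 5 12 0x703d756b034721b]] (.root 53 0 [] (ce 1 136 5 12 0x688c9dac5ea3f95) (.split 51 (.set 52 [[ce 0 136 6 12 0x380f9729a62321c43b]] (.newt 53 [[ce 1 136 5 12 0xca1dffdf46c4e8d, ce (-2) 136 3 12 0xce5fb7561]] (.dead 55 77 [[]] [] [ce (-1) 136 5 12 0xa70641898805581]))) (.set 52 [[ce 0 136 6 12 0x9b01b78b2e1720cc23]] (.newt 53 [[ce 1 136 5 12 0x7f84fd8540e0c89, ce (-2) 136 3 12 0xa337d21e1]] (.dead 55 77 [[]] [] [ce (-1) 136 5 12 0xc68f16a00071603])))) (.split 51 (.set 52 [[ce 0 136 6 12 0x380f9729a62321c43b]] (.newt 53 [[ce 1 136 5 12 0x3e2410a4da43593, ce (-2) 136 3 12 0x563291ce7]] (.root 56 0 [] (ce 0 136 6 12 0x66d2aebe5588882a91) (.dead 58 77 [[]] [] [ce (-1) 136 4 12 0x93489704ea08]) (.dead 58 77 [[]] [] [ce (-1) 136 4 12 0x93489704ea08])))) (.set 52 [[ce 0 136 6 12 0x9b01b78b2e1720cc23]] (.newt 53 [[ce 1 136 5 12 0x88bd12fec027797,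 ce (-2) 136 3 12 0x615a76067]] (.dead 55 77 [[]] [] [ce (-1) 136 5 12 0x743d27d44653795])))))) (.set 52 [[ce 0 136 5 12 0x52053b191d45007]] (.root 53 0 [] (ce 1 136 5 12 0x1c7580d7cab3705) (.split 51 (.set 52 [[ce 0 136 6 12 0xa88093da623da14007]] (.newt 53 [[ce 1 136 5 12 0x1ed5e6f4de14615, ce (-2) 136 3 12 0x906e31047]] (.dead 55 77 [[]] [] [ce (-1) 136 5 12 0x4dbe57a78f71451]))) (.set 52 [[ce 0 136 6 12 0xb82833bea31a0482f]] (.newt 53 [[ce 1 136 5 12 0x6a6c22cfc0b3615, ce (-2) 136 3 12 0xa72bf4d45]] (.dead 55 77 [[]] [] [ce (-1) 136 5 12 0xdd8f85ac05234d9])))) (.split 51 (.set 52 [[ce 0 136 6 12 0xa88093da623da14007]] (.newt 53 [[ce 1 136 5 12 0xe96c298f42f3e0b, ce (-2) 136 3 12 0x9022171c1]] (.dead 55 77 [[]] [] [ce (-1) 136 5 12 0xa96080cbc375611]))) (.set 52 [[ce 0 136 6 12 0xb82833bea31a0482f]] (.newt 53 [[ce 1 136 5 12 0x9dd5edb44054e0b, ce (-2) 136 3 12 0x7d66544c3]] (.root 56 0 [] (ce 0 136 6 12 0xf6c81636b03aa14099) (.split 51 (.set 52 [[ce 0 136 7 12 0x84e05431df9431d01306f]]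 (.newt 53 [[ce 1 136 6 12 0x4ff2b66cd8a0e93c1b, ce (-2) 136 4 11 0xf0750272bc3]] (.newt 56 [[ce 0 136 6 12 0xf6c81636b03aa14099, ce (-1) 136 4 12 0xd2601f860223]] (.set 59 [[]] (.yrt 60 [] (ce 1 136 5 12 0x945f70dc0467603) (.split 51 (.set 52 [[ce 0 136 8 12 0xc2388ac38e7e2831e804606f]] (.newt 53 [[ce 1 136 7 12 0x877d5061776120f58e84b, ce (-2) 136 5 11 0x7e072824712f83]] (.newt 56 [[ce 0 136 7 12 0x9a7200e3bae00ab051109, ce (-1) 136 5 12 0x68ac80fd1604843]] (.set 59 [[]] (.newt 78 [[ce 1 136 5 12 0x315e748c00e550b, ce (-2) 136 3 12 0xb4af95575]] (.set 66 [[ce 0 136 8 12 0xbc3c38a78808100c88781899]] (.set 67 [[ce (-2) 136 6 12 0x217817978cafcbbf23]] (.set 68 [[ce (-1) 136 6 12 0xb7a5b044762e802cb3]] (.set 69 [[]] (.dent 78 73 70 false [[ce (-2) 136 4 12 0x5fd0b06b2969]] [[ce 0 136 10 12 0xc00008010020200202802008080001]] [[ce 0 136 9 12 0x8040201c0c04010100402000181]] (.deep 71 75 76 80 81 51 3 [12] [] [] (.pnil 83) (.pnil 83) (.set 82 [[]] (.set 83 [[]] (.set 84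 [[]] (.set 85 [[ce (-2) 136 5 12 0x76e0105f5da298c]] (.set 86 [[ce (-1) 136 4 12 0x29aed49bfb66]] (.half 71 87 75 [ce 0 136 5 12 0xdad02f1348a2b94] (ce (-1) 136 5 12 0xd7f46fe3ed0f55a) (.fin 71 87 88 [[ce 0 136 4 12 0x51026cecce80]] (.newt 92 [[ce 0 136 5 12 0x14c1924f45a2a94, ce (-1) 136 3 12 0x977926924]] (.set 91 [[]] (.half 71 89 76 [ce (-1) 136 5 12 0x7fe9612048a6998] (ce 0 136 5 11 0x6f58fb1addbdda) (.fin 71 89 93 [[ce (-1) 136 4 12 0x374ae4e00e0c]] (.newt 97 [[ce 0 136 5 12 0x94b912701e4290c, ce (-1) 136 3 12 0x8d5826920]] (.set 96 [[]] (.add 94 72 false [[ce (-1) 136 5 12 0x60307e4b156129c]] (.tr 98 [[ce (-1) 136 5 12 0x5474d62880a6280]] (.half 71 99 75 [ce (-1) 136 5 12 0x44641c58801729a] (ce 0 136 5 12 0x7e590434c55681e) (.fin 71 99 100 [[ce (-1) 136 4 12 0x29654e0ce8ce]] (.newt 104 [[ce 2 136 6 12 0xf4d651e2f02aac6e73, ce (-3) 136 3 12 0x6ca772984]] (.set 103 [[]] (.edead 71 101 76 [false, true, false, true, false, false, true, false] [ce (-18) 136 5 12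 0x58254545b787b14]))))))))))))))))))))))))))))))) (.set 52 [[ce 0 136 8 12 0x22f8aac3eedea801e8c4e08f]] (.newt 53 [[ce 1 136 7 12 0x96bcd1ef756118b50f80b, ce (-2) 136 5 12 0xe0f0fa9053d4f83]] (.newt 56 [[ce 0 136 7 12 0x7a900161b4c812f111939, ce (-1) 136 5 12 0x698d44ae0a06b5b]] (.set 59 [[]] (.newt 78 [[ce 1 136 5 12 0x47ceb0ce8424487, ce (-2) 136 3 12 0x8ae395067]] (.set 66 [[ce 0 136 8 12 0xdcbcd89768e8901c08b81819]] (.set 67 [[ce (-2) 136 6 12 0x92ba0f55c0bba83f03]] (.set 68 [[ce (-1) 136 6 12 0xb5e18ce7380200a2ab]] (.set 69 [[]] (.dent 78 73 70 false [[ce (-2) 136 4 12 0x409050e3054b]] [[ce 0 136 10 12 0x601c0e034068100a80a0080a020181]] [[ce 0 136 9 12 0x807038130302004180500820061]] (.deep 71 75 76 80 81 51 3 [12] [] [] (.pnil 83) (.pnil 83) (.set 82 [[]] (.set 83 [[]] (.set 84 [[]] (.set 85 [[ce (-2) 136 5 12 0xf3e15e3dc9c1980]] (.set 86 [[ce (-1) 136 4 11 0x72ef2dbf7a0]] (.half 71 87 75 [ce 0 136 5 12 0xf9510131d026b9c] (ce (-1) 136 5 12 0x664566eb75886c0)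 (.fin 71 87 88 [[ce 0 136 4 12 0x9308ecac8200]] (.newt 92 [[ce 0 136 5 12 0x91c0d02dd1c1a88, ce (-1) 136 3 11 0x57022924]] (.set 91 [[]] (.half 71 89 76 [ce (-1) 136 5 12 0xfb784342d826980] (ce 0 136 5 12 0x905406f8b5fde54) (.fin 71 89 93 [[ce (-1) 136 4 12 0x314c6ca84284]] (.newt 97 [[ce 0 136 5 12 0x56a89c321240b14, ce (-1) 136 3 11 0x1f5122920]] (.set 96 [[]] (.add 94 72 false [[ce (-1) 136 5 12 0xc721722a0dc7080]] r0_1))))))))))))))))))))))))))))))) r0_2) (.dead 58 77 [[]] [] [ce (-1) 136 4 12 0x6aeb5788022e]))))))))))))))))))))))))))))))))))))))))))))))))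

theorem r0 : run FDL1.ds FDL1.es [[ce 0 136 62 1 0x26bebcf8ec08105d]] vs.length (fullH 14 vs (M 0 0) A) r0_0 = true := by
  decide +kernel

theorem rela {K : Type} [Field K] [NumberField K] {a : K} {pl : List (Place K)} {ph : List (K →+* ℝ)}
    {w : List (IsDedekindDomain.HeightOneSpectrum (NumberField.RingOfIntegers K))}
    (hP : Pack K FDL1 a pl ph w) : cval a vs 16 = ((-2) * cval a vs 37) := by
  have h : (cval a vs 16 + (-((((-2 : ℤ) : K) * cval a vs 37)))) = 0 :=
    hP.rel vs (.add (.var 16) (.neg (.mul (.num (-2)) (.var 37)))) (by decide +kernel)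
  have h0 : cval a vs 0 = a := by simp [cval, vs, ev]
  try rw [h0] at h
  try push_cast at h
  linear_combination h

theorem relb {K : Type} [Field K] [NumberField K] {a : K} {pl : List (Place K)} {ph : List (K →+* ℝ)}
    {w : List (IsDedekindDomain.HeightOneSpectrum (NumberField.RingOfIntegers K))}
    (hP : Pack K FDL1 a pl ph w) : cval a vs 17 = (-(((cval a vs 37) ^ 2))) := by
  have h : (cval a vs 17 + (-((-(((cval a vs 37) ^ 2)))))) = 0 :=
    hP.rel vs (.add (.var 17) (.neg (.neg (.sq (.var 37))))) (by decide +kernel)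
  have h0 : cval a vs 0 = a := by simp [cval, vs, ev]
  try rw [h0] at h
  try push_cast at h
  linear_combination h

theorem relD {K : Type} [Field K] [NumberField K] {a : K} {pl : List (Place K)} {ph : List (K →+* ℝ)}
    {w : List (IsDedekindDomain.HeightOneSpectrum (NumberField.RingOfIntegers K))}
    (hP : Pack K FDL1 a pl ph w) : cval a vs 37 = (3 * (cval a vs 36 * ((1) ^ 2))) := by
  have h : (cval a vs 37 + (-((((3 : ℤ) : K) * (cval a vs 36 * ((((1 : ℤ) : K)) ^ 2)))))) = 0 :=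
    hP.rel vs (.add (.var 37) (.neg (.mul (.num 3) (.mul (.var 36) (.sq (.num 1)))))) (by decide +kernel)
  have h0 : cval a vs 0 = a := by simp [cval, vs, ev]
  try rw [h0] at h
  try push_cast at h
  linear_combination h

theorem relG0 {K : Type} [Field K] [NumberField K] {a : K} {pl : List (Place K)} {ph : List (K →+* ℝ)}
    {w : List (IsDedekindDomain.HeightOneSpectrum (NumberField.RingOfIntegers K))}
    (hP : Pack K FDL1 a pl ph w) : (cval a vs 40 * (1 + ((-1) * cval a vs 15))) = (1 - ((-1) * cval a vs 15)) := by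
  have h : ((cval a vs 40 * (((1 : ℤ) : K) + (((-1 : ℤ) : K) * cval a vs 15))) + (-((((1 : ℤ) : K) + (-((((-1 : ℤ) : K) * cval a vs 15))))))) = 0 :=
    hP.rel vs (.add (.mul (.var 40) (.add (.num 1) (.mul (.num (-1)) (.var 15)))) (.neg (.add (.num 1) (.neg (.mul (.num (-1)) (.var 15)))))) (by decide +kernel)
  have h0 : cval a vs 0 = a := by simp [cval, vs, ev]
  try rw [h0] at h
  try push_cast at h
  linear_combination h

theorem relE0 {K : Type} [Field K] [NumberField K] {a : K} {pl : List (Place K)} {ph : List (K →+* ℝ)}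
    {w : List (IsDedekindDomain.HeightOneSpectrum (NumberField.RingOfIntegers K))}
    (hP : Pack K FDL1 a pl ph w) : ((cval a vs 35) ^ 2) = (1 + (3 * ((cval a vs 40) ^ 2))) := by
  have h : (((cval a vs 35) ^ 2) + (-((((1 : ℤ) : K) + (((3 : ℤ) : K) * ((cval a vs 40) ^ 2)))))) = 0 :=
    hP.rel vs (.add (.sq (.var 35)) (.neg (.add (.num 1) (.mul (.num 3) (.sq (.var 40)))))) (by decide +kernel)
  have h0 : cval a vs 0 = a := by simp [cval, vs, ev]
  try rw [h0] at h
  try push_cast at h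
  linear_combination h

theorem relxi0 {K : Type} [Field K] [NumberField K] {a : K} {pl : List (Place K)} {ph : List (K →+* ℝ)}
    {w : List (IsDedekindDomain.HeightOneSpectrum (NumberField.RingOfIntegers K))}
    (hP : Pack K FDL1 a pl ph w) : ((cval a vs 41) ^ 2) = (1 + cval a vs 35) := by
  have h : (((cval a vs 41) ^ 2) + (-((((1 : ℤ) : K) + cval a vs 35)))) = 0 :=
    hP.rel vs (.add (.sq (.var 41)) (.neg (.add (.num 1) (.var 35)))) (by decide +kernel)
  have h0 : cval a vs 0 = a := by simp [cval, vs, ev]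
  try rw [h0] at h
  try push_cast at h
  linear_combination h

theorem relx0 {K : Type} [Field K] [NumberField K] {a : K} {pl : List (Place K)} {ph : List (K →+* ℝ)}
    {w : List (IsDedekindDomain.HeightOneSpectrum (NumberField.RingOfIntegers K))}
    (hP : Pack K FDL1 a pl ph w) : cval a vs 38 = (cval a vs 37 * (1 + cval a vs 41)) := by
  have h : (cval a vs 38 + (-((cval a vs 37 * (((1 : ℤ) : K) + cval a vs 41))))) = 0 :=
    hP.rel vs (.add (.var 38) (.neg (.mul (.var 37) (.add (.num 1) (.var 41))))) (by decide +kernel)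
  have h0 : cval a vs 0 = a := by simp [cval, vs, ev]
  try rw [h0] at h
  try push_cast at h
  linear_combination h

theorem relG1 {K : Type} [Field K] [NumberField K] {a : K} {pl : List (Place K)} {ph : List (K →+* ℝ)}
    {w : List (IsDedekindDomain.HeightOneSpectrum (NumberField.RingOfIntegers K))}
    (hP : Pack K FDL1 a pl ph w) : (cval a vs 45 * (37 + ((-29) * cval a vs 15))) = (37 - ((-29) * cval a vs 15)) := by
  have h : ((cval a vs 45 * (((37 : ℤ) : K) + (((-29 : ℤ) : K) * cval a vs 15))) + (-((((37 : ℤ) : K) + (-((((-29 : ℤ) : K) * cval a vs 15))))))) = 0 :=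
    hP.rel vs (.add (.mul (.var 45) (.add (.num 37) (.mul (.num (-29)) (.var 15)))) (.neg (.add (.num 37) (.neg (.mul (.num (-29)) (.var 15)))))) (by decide +kernel)
  have h0 : cval a vs 0 = a := by simp [cval, vs, ev]
  try rw [h0] at h
  try push_cast at h
  linear_combination h

theorem relE1 {K : Type} [Field K] [NumberField K] {a : K} {pl : List (Place K)} {ph : List (K →+* ℝ)}
    {w : List (IsDedekindDomain.HeightOneSpectrum (NumberField.RingOfIntegers K))}
    (hP : Pack K FDL1 a pl ph w) : ((cval a vs 44) ^ 2) = (1 + (3 * ((cval a vs 45) ^ 2))) := by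
  have h : (((cval a vs 44) ^ 2) + (-((((1 : ℤ) : K) + (((3 : ℤ) : K) * ((cval a vs 45) ^ 2)))))) = 0 :=
    hP.rel vs (.add (.sq (.var 44)) (.neg (.add (.num 1) (.mul (.num 3) (.sq (.var 45)))))) (by decide +kernel)
  have h0 : cval a vs 0 = a := by simp [cval, vs, ev]
  try rw [h0] at h
  try push_cast at h
  linear_combination h

theorem relxi1 {K : Type} [Field K] [NumberField K] {a : K} {pl : List (Place K)} {ph : List (K →+* ℝ)}
    {w : List (IsDedekindDomain.HeightOneSpectrum (NumberField.RingOfIntegers K))}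
    (hP : Pack K FDL1 a pl ph w) : ((cval a vs 46) ^ 2) = (1 + cval a vs 44) := by
  have h : (((cval a vs 46) ^ 2) + (-((((1 : ℤ) : K) + cval a vs 44)))) = 0 :=
    hP.rel vs (.add (.sq (.var 46)) (.neg (.add (.num 1) (.var 44)))) (by decide +kernel)
  have h0 : cval a vs 0 = a := by simp [cval, vs, ev]
  try rw [h0] at h
  try push_cast at h
  linear_combination h

theorem relx1 {K : Type} [Field K] [NumberField K] {a : K} {pl : List (Place K)} {ph : List (K →+* ℝ)}
    {w : List (IsDedekindDomain.HeightOneSpectrum (NumberField.RingOfIntegers K))}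
    (hP : Pack K FDL1 a pl ph w) : cval a vs 42 = (cval a vs 37 * (1 + cval a vs 46)) := by
  have h : (cval a vs 42 + (-((cval a vs 37 * (((1 : ℤ) : K) + cval a vs 46))))) = 0 :=
    hP.rel vs (.add (.var 42) (.neg (.mul (.var 37) (.add (.num 1) (.var 46))))) (by decide +kernel)
  have h0 : cval a vs 0 = a := by simp [cval, vs, ev]
  try rw [h0] at h
  try push_cast at h
  linear_combination h

theorem core {K : Type} [Field K] [NumberField K] {a : K} {pl : List (Place K)} {ph : List (K →+* ℝ)}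
    {w : List (IsDedekindDomain.HeightOneSpectrum (NumberField.RingOfIntegers K))}
    (hP : Pack K FDL1 a pl ph w) {G : Prop} (t g E xi x y dG0 dE0 dxi0 dx0 dG1 dE1 dxi1 dx1 : K)
    (hdisc : Q2 0 (t - ((0 : ℤ) : K)))
    (hG : g = ((2 * ((1 + (t * cval a vs 15)))⁻¹) - 1))
    (hE : E ^ 2 = (1 + (3 * ((g) ^ 2))))
    (hclsE : IsSquare (1 + (3 * ((g) ^ 2))))
    (hclsR : IsSquare (cval a vs 35 * E))
    (hxi : xi ^ 2 = (1 + E))
    (hclsX : IsSquare (1 + E))
    (hcls : IsSquare ((1 + xi) * cval a vs 36))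
    (hx : x = (cval a vs 37 * (1 + xi)))
    (hon : On (cval a vs 16) (cval a vs 17) x y)
    (hdG0 : ((1 + (t * cval a vs 15)) * (1 + ((-1) * cval a vs 15))) * dG0 = ((-2) * cval a vs 15))
    (hdE0 : (E + cval a vs 35) * dE0 = (3 * ((g + cval a vs 40) * dG0)))
    (hdxi0 : (xi + cval a vs 41) * dxi0 = dE0)
    (hdx0 : dx0 = (cval a vs 37 * dxi0))
    (hdq0n : (1 * t - (-1)) ≠ 0) (hdq0 : x - cval a vs 38 = (1 * t - (-1)) * dx0)
    (hdG1 : ((1 + (t * cval a vs 15)) * (37 + ((-29) * cval a vs 15))) * dG1 = ((-2) * cval a vs 15))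
    (hdE1 : (E + cval a vs 44) * dE1 = (3 * ((g + cval a vs 45) * dG1)))
    (hdxi1 : (xi + cval a vs 46) * dxi1 = dE1)
    (hdx1 : dx1 = (cval a vs 37 * dxi1))
    (hdq1n : (37 * t - (-29)) ≠ 0) (hdq1 : x - cval a vs 42 = (37 * t - (-29)) * dx1) :
    G := by
  refine hP.cover (fr := [t, g, E, xi, x, y, dG0, dE0, dxi0, dx0, dG1, dE1, dxi1, dx1]) (M := M) (cs := [[ce 0 136 62 1 0x26bebcf8ec08105d]]) rfl auto
    (l := [(0, 0)]) (by decide) ?_ hdisc fun tt kk hq => ?_
  · exact List.forall_mem_cons.2 ⟨⟨_, r0⟩, fun _ h => absurd h List.not_mem_nil⟩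
  · refine List.forall_mem_cons.2 ⟨?_, List.forall_mem_cons.2 ⟨?_, List.forall_mem_cons.2 ⟨?_, List.forall_mem_cons.2 ⟨?_, List.forall_mem_cons.2 ⟨?_, List.forall_mem_cons.2 ⟨?_, List.forall_mem_cons.2 ⟨?_, List.forall_mem_cons.2 ⟨?_, List.forall_mem_cons.2 ⟨?_, List.forall_mem_cons.2 ⟨?_, List.forall_mem_cons.2 ⟨?_, List.forall_mem_cons.2 ⟨?_, List.forall_mem_cons.2 ⟨?_, List.forall_mem_cons.2 ⟨?_, List.forall_mem_cons.2 ⟨?_, List.forall_mem_cons.2 ⟨?_, List.forall_mem_cons.2 ⟨?_, List.forall_mem_cons.2 ⟨?_, List.forall_mem_cons.2 ⟨?_, List.forall_mem_cons.2 ⟨?_, fun _ h => absurd h List.not_mem_nil⟩⟩⟩⟩⟩⟩⟩⟩⟩⟩⟩⟩⟩⟩⟩⟩⟩⟩⟩⟩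
    · exact hq
    · show g = ((((2 : ℤ) : K) * ((((1 : ℤ) : K) + (t * cval a vs 15)))⁻¹) + (-(((1 : ℤ) : K))))
      try push_cast
      linear_combination hG
    · show E ^ 2 = (((1 : ℤ) : K) + (((3 : ℤ) : K) * ((g) ^ 2)))
      try push_cast
      linear_combination hE
    · exact span_of_isSquare (x := (((1 : ℤ) : K) + (((3 : ℤ) : K) * ((g) ^ 2)))) ((by push_cast; ring : (((1 : ℤ) : K) + (((3 : ℤ) : K) * ((g) ^ 2))) = (1 + (3 * ((g) ^ 2)))) ▸ hclsE)
    · exact span_of_isSquare (x := (cval a vs 35 * E)) ((by push_cast; ring : (cval a vs 35 * E) = (cval a vs 35 * E)) ▸ hclsR)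
    · show xi ^ 2 = (((1 : ℤ) : K) + E)
      try push_cast
      linear_combination hxi
    · exact span_of_isSquare (x := (((1 : ℤ) : K) + E)) ((by push_cast; ring : (((1 : ℤ) : K) + E) = (1 + E)) ▸ hclsX)
    · exact span_of_isSquare (x := ((((1 : ℤ) : K) + xi) * cval a vs 36)) ((by push_cast; ring : ((((1 : ℤ) : K) + xi) * cval a vs 36) = ((1 + xi) * cval a vs 36)) ▸ hcls)
    · show x = (cval a vs 37 * (((1 : ℤ) : K) + xi))
      try push_cast
      linear_combination hx
    · exact hon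
    · show ((((1 : ℤ) : K) + (t * cval a vs 15)) * (((1 : ℤ) : K) + (((-1 : ℤ) : K) * cval a vs 15))) * dG0 = (((-2 : ℤ) : K) * cval a vs 15)
      try push_cast
      linear_combination hdG0
    · show (E + cval a vs 35) * dE0 = (((3 : ℤ) : K) * ((g + cval a vs 40) * dG0))
      try push_cast
      linear_combination hdE0
    · show (xi + cval a vs 41) * dxi0 = dE0
      try push_cast
      linear_combination hdxi0
    · show dx0 = (cval a vs 37 * dxi0)
      try push_cast
      linear_combination hdx0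
    · show (((1 : ℤ) : K) * t - ((-1 : ℤ) : K)) ≠ 0 ∧ x - cval a vs 38 = (((1 : ℤ) : K) * t - ((-1 : ℤ) : K)) * dx0
      try push_cast
      exact ⟨by simpa using hdq0n, by linear_combination hdq0⟩
    · show ((((1 : ℤ) : K) + (t * cval a vs 15)) * (((37 : ℤ) : K) + (((-29 : ℤ) : K) * cval a vs 15))) * dG1 = (((-2 : ℤ) : K) * cval a vs 15)
      try push_cast
      linear_combination hdG1
    · show (E + cval a vs 44) * dE1 = (((3 : ℤ) : K) * ((g + cval a vs 45) * dG1))
      try push_cast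
      linear_combination hdE1
    · show (xi + cval a vs 46) * dxi1 = dE1
      try push_cast
      linear_combination hdxi1
    · show dx1 = (cval a vs 37 * dxi1)
      try push_cast
      linear_combination hdx1
    · show (((37 : ℤ) : K) * t - ((-29 : ℤ) : K)) ≠ 0 ∧ x - cval a vs 42 = (((37 : ℤ) : K) * t - ((-29 : ℤ) : K)) * dx1
      try push_cast
      exact ⟨by simpa using hdq1n, by linear_combination hdq1⟩

end Pool.Agent.Lib.MP_ab8df0_nt.T.B11c
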